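import Pool.Agent.H967R3.CP.Core

set_option autoImplicit false
open Filter Cardinal

namespace H967CP

/-- closure of the empty set under `d` -/
def Bn (d : ℕ → List (ℕ → ℕ) → (ℕ → ℕ)) : ℕ → Set (ℕ → ℕ)
  | 0 => ∅
  | n + 1 => Bn d n ∪ Set.range (fun q : ℕ × List (Bn d n) => d q.1 (q.2.map (↑)))

theorem Bn_countable (d : ℕ → List (ℕ → ℕ) → (ℕ → ℕ)) : ∀ n, (Bn d n).Countable
  | 0 => by simp [Bn]
  | n + 1 => by
    have ih := Bn_countable d n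
    have : Countable (Bn d n) := ih.to_subtype
    exact ih.union (Set.countable_range _)

theorem Bn_mono (d : ℕ → List (ℕ → ℕ) → (ℕ → ℕ)) : Monotone (Bn d) :=
  monotone_nat_of_le_succ (fun _ _ hx => Or.inl hx)

theorem Bn_list (d : ℕ → List (ℕ → ℕ) → (ℕ → ℕ)) :
    ∀ l : List (ℕ → ℕ), (∀ f ∈ l, f ∈ ⋃ n, Bn d n) → ∃ n, ∀ f ∈ l, f ∈ Bn d n
  | [], _ => ⟨0, by simp⟩
  | g :: l, h => by
    obtain ⟨n, hn⟩ := Bn_list d l (fun f hf => h f (List.mem_cons_of_mem _ hf))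
    obtain ⟨m, hm⟩ := Set.mem_iUnion.1 (h g List.mem_cons_self)
    refine ⟨max n m, ?_⟩
    intro f hf
    rcases List.mem_cons.1 hf with rfl | h'
    · exact Bn_mono d (le_max_right n m) hm
    · exact Bn_mono d (le_max_left n m) (hn f h')

/-- first corollary: `e_2^const ≤ cof([d]^ω)`. -/
theorem cof_version (D : Set (ℕ → ℕ)) (hD : ∀ g : ℕ → ℕ, ∃ f ∈ D, ∀ᶠ n in atTop, g n ≤ f n)
    (𝒜 : Set (Set (ℕ → ℕ))) (hc : ∀ A ∈ 𝒜, A.Countable)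
    (hcof : ∀ B ⊆ D, B.Countable → ∃ A ∈ 𝒜, B ⊆ A) :
    ∃ E : Set (ℕ → Bool), Cardinal.mk E ≤ Cardinal.mk 𝒜 ∧
      ∀ π : List Bool → Bool, ∃ f ∈ E, ∀ k : ℕ, ∃ᶠ n in atTop, ∀ i ∈ Finset.Ico n (n + k),
        f i ≠ π ((List.range i).map f) := by
  apply core 𝒜 hc
  intro Ψ
  choose d hd1 hd2 using fun (j : ℕ) (l : List (ℕ → ℕ)) => hD (Ψ j l)
  have hBc : (⋃ n, Bn d n).Countable := Set.countable_iUnion (Bn_countable d)
  have hBD : (⋃ n, Bn d n) ⊆ D := by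
    apply Set.iUnion_subset
    intro n
    induction n with
    | zero => simp [Bn]
    | succ n ih =>
      rintro f (hf | ⟨q, rfl⟩)
      · exact ih hf
      · exact hd1 _ _
  obtain ⟨A, hA, hBA⟩ := hcof _ hBD hBc
  refine ⟨A, hA, _, hBA, ?_⟩
  intro j l hl
  obtain ⟨n, hn⟩ := Bn_list d l hl
  refine ⟨d j l, Set.mem_iUnion.2 ⟨n + 1, Or.inr ⟨(j, l.attach.map (fun f => (⟨f.1, hn f.1 f.2⟩ : Bn d n))), ?_⟩⟩, hd2 j l⟩
  simp [List.map_map, Function.comp_def]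

theorem bounded_of_countable (κ : Cardinal.{0}) (hκ : ℵ₀ ≤ κ) (B : Set (Order.succ κ).ord.ToType)
    (hB : B.Countable) : ∃ w, ∀ b ∈ B, b < w := by
  by_contra hcon
  push Not at hcon
  have hU : (Set.univ : Set (Order.succ κ).ord.ToType) ⊆ ⋃ b : B, Set.Iic b.1 := by
    intro w _
    obtain ⟨b, hb, hw⟩ := hcon w
    exact Set.mem_iUnion.2 ⟨⟨b, hb⟩, hw⟩
  have h1 : ∀ b : B, #(Set.Iic b.1) ≤ κ := by
    intro b
    have h2 : #(Set.Iio b.1) < Order.succ κ := mk_Iio_toType_ord_lt _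
    have h3 : #(Set.Iio b.1) ≤ κ := Order.lt_succ_iff.1 h2
    have h4 : Set.Iic b.1 = insert b.1 (Set.Iio b.1) := by
      ext x
      simp [le_iff_eq_or_lt]
    rw [h4]
    refine (mk_insert_le).trans ?_
    refine (add_le_add h3 le_rfl).trans ?_
    rw [add_one_of_aleph0_le hκ]
  have h5 : #(Set.univ : Set (Order.succ κ).ord.ToType) ≤ κ := by
    refine (mk_le_mk_of_subset hU).trans ?_
    refine (mk_iUnion_le _).trans ?_
    have hB' : #B ≤ ℵ₀ := hB.le_aleph0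
    refine (mul_le_mul' (hB'.trans hκ) (ciSup_le' h1)).trans ?_
    rw [mul_eq_self hκ]
  rw [mk_univ, mk_ord_toType] at h5
  exact absurd h5 (not_le.2 (Order.lt_succ κ))

def Cov (κ : Cardinal.{0}) : Prop := ∀ (α : Type) (_ : #α ≤ κ), ∃ 𝒜 : Set (Set α),
    #𝒜 ≤ κ ∧ (∀ A ∈ 𝒜, A.Countable) ∧ ∀ B : Set α, B.Countable → ∃ A ∈ 𝒜, B ⊆ A

theorem cov_succ (κ : Cardinal.{0}) (hκ : ℵ₀ ≤ κ) (ih : Cov κ) : Cov (Order.succ κ) := by
  intro α hα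
  have hα' : #α ≤ #((Order.succ κ).ord.ToType) := by rw [mk_ord_toType]; exact hα
  obtain ⟨g⟩ := hα'
  have key : ∀ w : (Order.succ κ).ord.ToType, ∃ 𝒜 : Set (Set {a : α // g a < w}),
      #𝒜 ≤ κ ∧ (∀ A ∈ 𝒜, A.Countable) ∧ ∀ B : Set {a : α // g a < w}, B.Countable → ∃ A ∈ 𝒜, B ⊆ A := by
    intro w
    apply ih
    have h2 : #(Set.Iio w) < Order.succ κ := mk_Iio_toType_ord_lt _
    have h3 := Order.lt_succ_iff.1 h2
    refine le_trans ?_ h3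
    refine ⟨⟨fun a => ⟨g a.1, a.2⟩, ?_⟩⟩
    intro a b hab
    exact Subtype.ext (g.injective (congrArg Subtype.val hab))
  choose 𝒜 h𝒜1 h𝒜2 h𝒜3 using key
  refine ⟨⋃ w, (fun A : Set {a : α // g a < w} => (Subtype.val '' A : Set α)) '' (𝒜 w), ?_, ?_, ?_⟩
  · refine (mk_iUnion_le _).trans ?_
    have h1 : (⨆ w, #((fun A : Set {a : α // g a < w} => (Subtype.val '' A : Set α)) '' (𝒜 w))) ≤ κ :=
      ciSup_le' (fun w => mk_image_le.trans (h𝒜1 w))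
    rw [mk_ord_toType]
    refine (mul_le_mul' le_rfl (h1.trans (Order.le_succ κ))).trans ?_
    rw [mul_eq_self (hκ.trans (Order.le_succ κ))]
  · intro A hA
    obtain ⟨w, hw⟩ := Set.mem_iUnion.1 hA
    obtain ⟨A', hA', rfl⟩ := hw
    exact (h𝒜2 w A' hA').image _
  · intro B hB
    obtain ⟨w, hw⟩ := bounded_of_countable κ hκ (g '' B) (hB.image _)
    obtain ⟨A, hA, hBA⟩ := h𝒜3 w (Subtype.val ⁻¹' B) (hB.preimage Subtype.val_injective)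
    refine ⟨Subtype.val '' A, Set.mem_iUnion.2 ⟨w, A, hA, rfl⟩, ?_⟩
    intro b hb
    exact ⟨⟨b, hw _ ⟨b, hb, rfl⟩⟩, hBA hb, rfl⟩

theorem cof_aleph (n : ℕ) : Cov (ℵ_ (n : Ordinal)) := by
  induction n with
  | zero =>
    intro α hα
    refine ⟨{Set.univ}, ?_, ?_, ?_⟩
    · rw [mk_singleton]
      exact one_le_aleph0.trans (aleph0_le_aleph _)
    · rintro A rfl
      have : #α ≤ ℵ₀ := by simpa using hα
      exact Set.countable_univ_iff.2 (mk_le_aleph0_iff.1 this)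
    · intro B _
      exact ⟨Set.univ, rfl, Set.subset_univ _⟩
  | succ n ih =>
    have h := cov_succ _ (aleph0_le_aleph _) ih
    rw [← aleph_succ] at h
    simpa using h

theorem dominating_infinite (D : Set (ℕ → ℕ)) (hD : ∀ g : ℕ → ℕ, ∃ f ∈ D, ∀ᶠ n in atTop, g n ≤ f n) :
    ℵ₀ ≤ #D := by
  by_contra hcon
  rw [not_le, lt_aleph0_iff_finite] at hcon
  have hfin : D.Finite := Set.toFinite D
  obtain ⟨f, hf, hfe⟩ := hD (fun n => (∑ f ∈ hfin.toFinset, f n) + 1)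
  obtain ⟨n, hn⟩ := hfe.exists
  have : f n ≤ ∑ f ∈ hfin.toFinset, f n :=
    Finset.single_le_sum (f := fun f : ℕ → ℕ => f n) (fun _ _ => Nat.zero_le _) (by simpa using hf)
  omega

theorem aleph_omega_version (D : Set (ℕ → ℕ)) (hD : ∀ g : ℕ → ℕ, ∃ f ∈ D, ∀ᶠ n in atTop, g n ≤ f n)
    (hω : #D < ℵ_ Ordinal.omega0) :
    ∃ E : Set (ℕ → Bool), Cardinal.mk E ≤ Cardinal.mk D ∧
      ∀ π : List Bool → Bool, ∃ f ∈ E, ∀ k : ℕ, ∃ᶠ n in atTop, ∀ i ∈ Finset.Ico n (n + k),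
        f i ≠ π ((List.range i).map f) := by
  obtain ⟨n, hn⟩ : ∃ n : ℕ, #D = ℵ_ (n : ℕ) := by
    obtain ⟨o, ho⟩ := mem_range_aleph_iff.2 (dominating_infinite D hD)
    rw [← ho] at hω
    have := aleph_lt_aleph.1 hω
    obtain ⟨n, rfl⟩ := Ordinal.lt_omega0.1 this
    exact ⟨n, ho.symm⟩
  obtain ⟨𝒜, h1, h2, h3⟩ := cof_aleph n D hn.le
  obtain ⟨E, hE, H⟩ := cof_version D hD ((fun A : Set D => (Subtype.val '' A : Set (ℕ → ℕ))) '' 𝒜)
    (by rintro _ ⟨A, hA, rfl⟩; exact (h2 A hA).image _)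
    (by
      intro B hB hBc
      obtain ⟨A, hA, hBA⟩ := h3 (Subtype.val ⁻¹' B) (hBc.preimage Subtype.val_injective)
      exact ⟨_, ⟨A, hA, rfl⟩, fun b hb => ⟨⟨b, hB hb⟩, hBA hb, rfl⟩⟩)
  refine ⟨E, hE.trans (mk_image_le.trans (h1.trans hn.ge)), H⟩

end H967CP
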