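import Mathlib

set_option autoImplicit false
open Filter

namespace H967CP

/-- `x` passes through the node `t`. -/
def P (x : ℕ → Bool) (t : List Bool) : Prop := (List.range t.length).map x = t

theorem P_agree {x y : ℕ → Bool} {s : List Bool} (hx : P x s) (hy : P y s) (i : ℕ)
    (hi : i < s.length) : x i = y i := by
  have h : (List.range s.length).map x = (List.range s.length).map y := hx.trans hy.symm
  have h2 := congrArg (fun l : List Bool => l[i]?) h
  simpa [hi] using h2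

theorem P_node (x : ℕ → Bool) (n : ℕ) : P x ((List.range n).map x) := by
  unfold P; simp

theorem P_of_agree {x y : ℕ → Bool} {s : List Bool} (hx : P x s)
    (h : ∀ i < s.length, y i = x i) : P y s := by
  unfold P at *
  rw [← hx]
  simp only [List.length_map, List.length_range]
  rw [List.map_inj_left]
  intro a ha
  rw [List.mem_range] at ha
  exact h a ha

theorem node_congr {x y : ℕ → Bool} {n : ℕ} (h : ∀ i < n, y i = x i) :
    (List.range n).map y = (List.range n).map x := by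
  rw [List.map_inj_left]
  intro a ha
  rw [List.mem_range] at ha
  exact h a ha

theorem P_left {x : ℕ → Bool} {s v : List Bool} (h : P x (s ++ v)) : P x s := by
  unfold P at *
  have h2 := congrArg (List.take s.length) h
  rw [← List.map_take, List.take_range] at h2
  simpa using h2

theorem P_prefix {x : ℕ → Bool} {t s : List Bool} (ht : P x t) (hs : P x s)
    (hl : t.length ≤ s.length) : t <+: s := by
  unfold P at ht hs
  rw [← ht, ← hs, ]
  have : List.range t.length <+: List.range s.length := by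
    rw [List.prefix_iff_eq_take]
    simp [List.take_range, hl]
  simpa using this.map x

theorem P_of_prefix {x : ℕ → Bool} {t s : List Bool} (hs : P x s) (h : t <+: s) : P x t := by
  obtain ⟨u, rfl⟩ := h
  exact P_left hs

/-- extension of a node to a real -/
def ext (s : List Bool) : ℕ → Bool := fun i => (s[i]?).getD false

theorem P_ext (s : List Bool) : P (ext s) s := by
  unfold P
  apply List.ext_getElem?
  intro i
  by_cases hi : i < s.length
  · simp [ext, hi]
  · simp [hi]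

def DenseN (S : Set (List Bool)) : Prop := ∀ t : List Bool, ∃ s ∈ S, t <+: s

theorem isOpen_P (t : List Bool) : IsOpen {x : ℕ → Bool | P x t} := by
  have : {x : ℕ → Bool | P x t} = PiNat.cylinder (ext t) t.length := by
    ext x
    constructor
    · intro hx i hi
      exact P_agree hx (P_ext t) i hi
    · intro hx
      exact P_of_agree (P_ext t) (fun i hi => hx i hi)
  rw [this]
  exact PiNat.isOpen_cylinder _ _ _

theorem dense_of {U : Set (ℕ → Bool)} (h : ∀ t : List Bool, ∃ x ∈ U, P x t) : Dense U := by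
  rw [(PiNat.isTopologicalBasis_cylinders (fun _ : ℕ => Bool)).dense_iff]
  rintro o ⟨x, n, rfl⟩ _
  obtain ⟨y, hyU, hy⟩ := h ((List.range n).map x)
  refine ⟨y, ?_, hyU⟩
  intro i hi
  exact P_agree hy (P_node x n) i (by simpa using hi)

theorem exists_z (S : Set (List Bool)) (hS : DenseN S) (v t : List Bool) :
    ∃ z : ℕ → Bool, P z t ∧ ∀ N : ℕ, ∃ s ∈ S, N ≤ s.length ∧ P z (s ++ v) := by
  let U : ℕ → Set (ℕ → Bool) := fun N => ⋃ s ∈ {s : List Bool | s ∈ S ∧ N ≤ s.length}, {x | P x (s ++ v)}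
  have hopen : ∀ N, IsOpen (U N) := by
    intro N
    exact isOpen_biUnion (fun s _ => isOpen_P _)
  have hdense : ∀ N, Dense (U N) := by
    intro N
    apply dense_of
    intro t'
    obtain ⟨s, hs, hts⟩ := hS (t' ++ List.replicate N false)
    refine ⟨ext (s ++ v), ?_, ?_⟩
    · refine Set.mem_biUnion (x := s) ⟨hs, ?_⟩ (P_ext _)
      have := hts.length_le
      simp at this
      omega
    · have h1 : P (ext (s ++ v)) s := P_left (P_ext _)
      exact P_left (P_of_prefix h1 hts)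
  have hd := dense_iInter_of_isOpen hopen hdense
  obtain ⟨z, hz1, hz2⟩ := hd.inter_open_nonempty {x | P x t} (isOpen_P t) ⟨ext t, P_ext t⟩
  refine ⟨z, hz1, ?_⟩
  intro N
  have := Set.mem_iInter.1 hz2 N
  simp only [U, Set.mem_iUnion, Set.mem_setOf_eq] at this
  obtain ⟨s, ⟨hs, hN⟩, hp⟩ := this
  exact ⟨s, hs, hN, hp⟩

noncomputable def zz (S : Set (List Bool)) (v t : List Bool) : ℕ → Bool :=
  Classical.epsilon (fun z : ℕ → Bool => P z t ∧ ∀ N : ℕ, ∃ s ∈ S, N ≤ s.length ∧ P z (s ++ v))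

theorem zz_spec (S : Set (List Bool)) (hS : DenseN S) (v t : List Bool) :
    P (zz S v t) t ∧ ∀ N : ℕ, ∃ s ∈ S, N ≤ s.length ∧ P (zz S v t) (s ++ v) :=
  Classical.epsilon_spec (exists_z S hS v t)

/-- the nodes obtained from a list of words and a list of functions -/
noncomputable def SS : List (List Bool) → List (ℕ → ℕ) → Set (List Bool)
  | [], _ => Set.univ
  | _ :: _, [] => Set.univ
  | v :: L, f :: F => {s | s ∈ SS L F ∧ ∃ t : List Bool, P (zz (SS L F) v t) (s ++ v) ∧
      f (Encodable.encode t) ≤ s.length}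

theorem SS_dense : ∀ (L : List (List Bool)) (F : List (ℕ → ℕ)), DenseN (SS L F)
  | [], _ => fun t => ⟨t, by simp [SS], List.prefix_refl t⟩
  | _ :: _, [] => fun t => ⟨t, by simp [SS], List.prefix_refl t⟩
  | v :: L, f :: F => by
    intro t
    have ih := SS_dense L F
    obtain ⟨h1, h2⟩ := zz_spec (SS L F) ih v t
    obtain ⟨s, hs, hN, hp⟩ := h2 (max (f (Encodable.encode t)) t.length)
    refine ⟨s, ⟨hs, t, hp, le_trans (le_max_left _ _) hN⟩, ?_⟩
    exact P_prefix h1 (P_left hp) (le_trans (le_max_right _ _) hN)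

/-- constant prediction with explicit constants -/
def C (π : List Bool → Bool) (k h : ℕ) (x : ℕ → Bool) : Prop :=
  ∀ n, h ≤ n → ∃ i ∈ Finset.Ico n (n + k), x i = π ((List.range i).map x)

theorem exit_exists (π : List Bool → Bool) (k h : ℕ) (z : ℕ → Bool) (hz : ¬ C π k h z) :
    ∃ n, ∀ x : ℕ → Bool, (∀ i < n, x i = z i) → ¬ C π k h x := by
  unfold C at hz
  push Not at hz
  obtain ⟨n, hn, hw⟩ := hz
  refine ⟨n + k, ?_⟩
  intro x hx hC
  obtain ⟨i, hi, hxi⟩ := hC n hn
  have hi' := Finset.mem_Ico.1 hi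
  apply hw i hi
  rw [← hx i hi'.2, hxi, node_congr (fun j hj => hx j (by omega))]

open Classical in
noncomputable def ex (π : List Bool → Bool) (k h : ℕ) (z : ℕ → Bool) : ℕ :=
  if hz : ¬ C π k h z then (exit_exists π k h z hz).choose else 0

theorem ex_spec {π : List Bool → Bool} {k h : ℕ} {z x : ℕ → Bool}
    (hx : ∀ i < ex π k h z, x i = z i) (hC : C π k h x) : C π k h z := by
  by_contra hz
  unfold ex at hx
  rw [dif_pos hz] at hx
  exact (exit_exists π k h z hz).choose_spec x hx hC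

noncomputable def gg (π : List Bool → Bool) (k h : ℕ) (S : Set (List Bool)) (v : List Bool) : ℕ → ℕ :=
  fun n => match (Encodable.decode n : Option (List Bool)) with
    | some t => ex π k h (zz S v t)
    | none => 0

theorem step {π : List Bool → Bool} {k h : ℕ} {L : List (List Bool)} {F : List (ℕ → ℕ)}
    {v : List Bool} {f : ℕ → ℕ} (hf : ∀ n, gg π k h (SS L F) v n ≤ f n)
    {s : List Bool} (hs : s ∈ SS (v :: L) (f :: F)) {x : ℕ → Bool} (hx : C π k h x) (hxs : P x s) :
    ∃ y, C π k h y ∧ P y (s ++ v) := by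
  obtain ⟨_, t, hp, hft⟩ := hs
  refine ⟨_, ?_, hp⟩
  have h1 := hf (Encodable.encode t)
  simp only [gg, Encodable.encodek] at h1
  refine ex_spec (x := x) ?_ hx
  intro i hi
  exact P_agree hxs (P_left hp) i (by omega)

theorem exists_wrong (π : List Bool → Bool) (s : List Bool) (k : ℕ) :
    ∃ v : List Bool, v.length = k ∧ ∀ x, P x (s ++ v) →
      ∀ i ∈ Finset.Ico s.length (s.length + k), x i ≠ π ((List.range i).map x) := by
  induction k with
  | zero => exact ⟨[], rfl, by simp⟩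
  | succ k ih =>
    obtain ⟨v, hv, hw⟩ := ih
    refine ⟨v ++ [!(π (s ++ v))], by simp [hv], ?_⟩
    intro x hx i hi
    rw [← List.append_assoc] at hx
    have hx1 := P_left hx
    rw [Finset.mem_Ico] at hi
    by_cases hik : i < s.length + k
    · exact hw x hx1 i (Finset.mem_Ico.2 ⟨hi.1, hik⟩)
    · have hik' : i = (s ++ v).length := by simp [hv]; omega
      subst hik'
      have hnode : (List.range (s ++ v).length).map x = s ++ v := hx1
      rw [hnode]
      have h3 : x (s ++ v).length = !(π (s ++ v)) := by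
        have h4 := P_agree hx (P_ext _) (s ++ v).length (by simp)
        rw [h4]
        simp [ext]
      rw [h3]
      simp

theorem exists_words (k : ℕ) : ∃ L : List (List Bool), ∀ v : List Bool, v.length = k → v ∈ L := by
  refine ⟨(List.finite_length_eq Bool k).toFinset.toList, ?_⟩
  intro v hv
  simp [hv]

noncomputable def LL (k : ℕ) : List (List Bool) := (exists_words k).choose

theorem LL_spec (k : ℕ) (v : List Bool) (hv : v.length = k) : v ∈ LL k :=
  (exists_words k).choose_spec v hv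

def comb : List (ℕ → ℕ) → List ℕ → List (ℕ → ℕ)
  | f :: l, c :: cs => (fun n => f n + c) :: comb l cs
  | _, _ => []

theorem eventually_add {g f : ℕ → ℕ} (h : ∀ᶠ n in atTop, g n ≤ f n) : ∃ c, ∀ n, g n ≤ f n + c := by
  obtain ⟨N, hN⟩ := eventually_atTop.1 h
  refine ⟨∑ i ∈ Finset.range N, g i, ?_⟩
  intro n
  by_cases hn : N ≤ n
  · exact le_trans (hN n hn) (Nat.le_add_right _ _)
  · have : g n ≤ ∑ i ∈ Finset.range N, g i :=
      Finset.single_le_sum (f := g) (fun _ _ => Nat.zero_le _) (Finset.mem_range.2 (by omega))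
    omega

/-- the adaptive requirement, coded by a natural number -/
noncomputable def Psi (π : List Bool → Bool) (j : ℕ) (l : List (ℕ → ℕ)) : ℕ → ℕ :=
  match (Encodable.decode j : Option (ℕ × ℕ × List Bool × List (List Bool) × List ℕ)) with
    | some (k, h, v, L, cs) => gg π k h (SS L (comb l cs)) v
    | none => fun _ => 0

theorem main_chain (π : List Bool → Bool) (B : Set (ℕ → ℕ))
    (hB : ∀ (j : ℕ) (l : List (ℕ → ℕ)), (∀ f ∈ l, f ∈ B) → ∃ f ∈ B, ∀ᶠ n in atTop, Psi π j l n ≤ f n)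
    (k h : ℕ) : ∀ L : List (List Bool), ∃ (l : List (ℕ → ℕ)) (cs : List ℕ), (∀ f ∈ l, f ∈ B) ∧
      ∀ s ∈ SS L (comb l cs), ∀ x, C π k h x → P x s → ∀ v ∈ L, ∃ y, C π k h y ∧ P y (s ++ v)
  | [] => ⟨[], [], by simp, by simp⟩
  | v :: L => by
    obtain ⟨l, cs, hl, ih⟩ := main_chain π B hB k h L
    obtain ⟨f, hf, hfe⟩ := hB (Encodable.encode (k, h, v, L, cs)) l hl
    obtain ⟨c, hc⟩ := eventually_add hfe
    simp only [Psi, Encodable.encodek] at hc
    refine ⟨f :: l, c :: cs, ?_, ?_⟩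
    · intro f' hf'
      rcases List.mem_cons.1 hf' with rfl | h'
      · exact hf
      · exact hl f' h'
    · intro s hs x hx hxs v' hv'
      rcases List.mem_cons.1 hv' with rfl | h'
      · exact step hc hs hx hxs
      · exact ih s hs.1 x hx hxs v' h'

/-- the dense open sets -/
def O (k h : ℕ) (F : List (ℕ → ℕ)) : Set (ℕ → Bool) :=
  ⋃ s ∈ {s : List Bool | s ∈ SS (LL k) F ∧ h ≤ s.length}, {x | P x s}

theorem O_open (k h : ℕ) (F : List (ℕ → ℕ)) : IsOpen (O k h F) :=
  isOpen_biUnion (fun _ _ => isOpen_P _)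

theorem O_dense (k h : ℕ) (F : List (ℕ → ℕ)) : Dense (O k h F) := by
  apply dense_of
  intro t
  obtain ⟨s, hs, hts⟩ := SS_dense (LL k) F (t ++ List.replicate h false)
  refine ⟨ext s, ?_, ?_⟩
  · refine Set.mem_biUnion (x := s) ⟨hs, ?_⟩ (P_ext _)
    have := hts.length_le
    simp at this
    omega
  · exact P_left (P_of_prefix (P_ext s) hts)

theorem O_avoid (π : List Bool → Bool) (B : Set (ℕ → ℕ))
    (hB : ∀ (j : ℕ) (l : List (ℕ → ℕ)), (∀ f ∈ l, f ∈ B) → ∃ f ∈ B, ∀ᶠ n in atTop, Psi π j l n ≤ f n)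
    (k h : ℕ) : ∃ (l : List (ℕ → ℕ)) (cs : List ℕ), (∀ f ∈ l, f ∈ B) ∧
      ∀ x ∈ O k h (comb l cs), ¬ C π k h x := by
  obtain ⟨l, cs, hl, H⟩ := main_chain π B hB k h (LL k)
  refine ⟨l, cs, hl, ?_⟩
  intro x hx hC
  simp only [O, Set.mem_iUnion, Set.mem_setOf_eq] at hx
  obtain ⟨s, ⟨hs, hh⟩, hp⟩ := hx
  obtain ⟨v, hv, hw⟩ := exists_wrong π s k
  obtain ⟨y, hy, hys⟩ := H s hs x hC hp v (LL_spec k v hv)
  obtain ⟨i, hi, hyi⟩ := hy s.length hh
  exact hw y hys i hi hyi

theorem core (𝒜 : Set (Set (ℕ → ℕ))) (hc : ∀ A ∈ 𝒜, A.Countable)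
    (hG : ∀ Ψ : ℕ → List (ℕ → ℕ) → ℕ → ℕ, ∃ A ∈ 𝒜, ∃ B ⊆ A, ∀ (j : ℕ) (l : List (ℕ → ℕ)),
      (∀ f ∈ l, f ∈ B) → ∃ f ∈ B, ∀ᶠ n in atTop, Ψ j l n ≤ f n) :
    ∃ E : Set (ℕ → Bool), Cardinal.mk E ≤ Cardinal.mk 𝒜 ∧
      ∀ π : List Bool → Bool, ∃ f ∈ E, ∀ k : ℕ, ∃ᶠ n in atTop, ∀ i ∈ Finset.Ico n (n + k),
        f i ≠ π ((List.range i).map f) := by
  have key : ∀ A : 𝒜, ∃ x : ℕ → Bool, ∀ (k h : ℕ) (l : List (A : Set (ℕ → ℕ))) (cs : List ℕ),
      x ∈ O k h (comb (l.map (↑)) cs) := by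
    intro A
    haveI : Countable (A : Set (ℕ → ℕ)) := (hc A A.2).to_subtype
    have hd : Dense (⋂ q : ℕ × ℕ × List (A : Set (ℕ → ℕ)) × List ℕ,
        O q.1 q.2.1 (comb (q.2.2.1.map (↑)) q.2.2.2)) :=
      dense_iInter_of_isOpen (fun q => O_open _ _ _) (fun q => O_dense _ _ _)
    obtain ⟨x, hx⟩ := hd.nonempty
    refine ⟨x, ?_⟩
    intro k h l cs
    exact Set.mem_iInter.1 hx (k, h, l, cs)
  choose X hX using key
  refine ⟨Set.range X, Cardinal.mk_range_le, ?_⟩
  intro π
  obtain ⟨A, hA, B, hBA, hB⟩ := hG (Psi π)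
  refine ⟨X ⟨A, hA⟩, ⟨_, rfl⟩, ?_⟩
  intro k
  by_contra hcon
  rw [Filter.not_frequently] at hcon
  obtain ⟨h, hh⟩ := eventually_atTop.1 hcon
  obtain ⟨l, cs, hl, H⟩ := O_avoid π B hB k h
  obtain ⟨l', rfl⟩ : ∃ l' : List A, l'.map (↑) = l := by
    refine ⟨l.attach.map (fun f => (⟨f.1, hBA (hl f.1 f.2)⟩ : A)), ?_⟩
    simp [List.map_map, Function.comp_def]
  refine H _ (hX ⟨A, hA⟩ k h l' cs) ?_
  intro n hn
  have := hh n hn
  push Not at this
  exact this

end H967CP
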