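import Pool.Agent.H967R3.CP.Cof

set_option autoImplicit false
open Filter Cardinal

namespace H967CP

theorem dual_version (Q0 : Set (List Bool → Bool))
    (hb : ∀ F : Set (ℕ → ℕ), #F ≤ #Q0 → ∃ g : ℕ → ℕ, ∀ f ∈ F, ∀ᶠ n in atTop, f n ≤ g n) :
    ∃ x : ℕ → Bool, ∀ π ∈ Q0, ∀ k : ℕ, ∃ᶠ n in atTop, ∀ i ∈ Finset.Ico n (n + k),
        x i ≠ π ((List.range i).map x) := by
  have hd : ∀ (j : ℕ) (l : List (ℕ → ℕ)), ∃ g : ℕ → ℕ, ∀ π ∈ Q0, ∀ᶠ n in atTop, Psi π j l n ≤ g n := by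
    intro j l
    obtain ⟨g, hg⟩ := hb ((fun π => Psi π j l) '' Q0) mk_image_le
    exact ⟨g, fun π hπ => hg _ ⟨π, hπ, rfl⟩⟩
  choose d hd using hd
  have hBc : (⋃ n, Bn d n).Countable := Set.countable_iUnion (Bn_countable d)
  have hB : ∀ π ∈ Q0, ∀ (j : ℕ) (l : List (ℕ → ℕ)), (∀ f ∈ l, f ∈ ⋃ n, Bn d n) →
      ∃ f ∈ ⋃ n, Bn d n, ∀ᶠ n in atTop, Psi π j l n ≤ f n := by
    intro π hπ j l hl
    obtain ⟨n, hn⟩ := Bn_list d l hl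
    refine ⟨d j l, Set.mem_iUnion.2 ⟨n + 1, Or.inr ⟨(j, l.attach.map (fun f => (⟨f.1, hn f.1 f.2⟩ : Bn d n))), ?_⟩⟩, hd j l π hπ⟩
    simp [List.map_map, Function.comp_def]
  have hcount : Countable (⋃ n, Bn d n : Set (ℕ → ℕ)) := hBc.to_subtype
  have hdense : Dense (⋂ q : ℕ × ℕ × List (⋃ n, Bn d n : Set (ℕ → ℕ)) × List ℕ,
      O q.1 q.2.1 (comb (q.2.2.1.map (↑)) q.2.2.2)) :=
    dense_iInter_of_isOpen (fun q => O_open _ _ _) (fun q => O_dense _ _ _)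
  obtain ⟨x, hx⟩ := hdense.nonempty
  refine ⟨x, ?_⟩
  intro π hπ k
  by_contra hcon
  rw [Filter.not_frequently] at hcon
  obtain ⟨h, hh⟩ := eventually_atTop.1 hcon
  obtain ⟨l, cs, hl, H⟩ := O_avoid π _ (hB π hπ) k h
  obtain ⟨l', rfl⟩ : ∃ l' : List (⋃ n, Bn d n : Set (ℕ → ℕ)), l'.map (↑) = l := by
    refine ⟨l.attach.map (fun f => (⟨f.1, hl f.1 f.2⟩ : (⋃ n, Bn d n : Set (ℕ → ℕ)))), ?_⟩
    simp [List.map_map, Function.comp_def]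
  refine H _ (Set.mem_iInter.1 hx (k, h, l', cs)) ?_
  intro n hn
  have := hh n hn
  push Not at this
  exact this

end H967CP
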