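import Pool.Agent.H967R3.CP.Scale
import Pool.Agent.H967R3.CP.Cof

set_option autoImplicit false
open Filter Cardinal

namespace H967CP

theorem chain_version (D : Set (ℕ → ℕ)) (hD : ∀ g : ℕ → ℕ, ∃ f ∈ D, ∀ᶠ n in atTop, g n ≤ f n)
    (𝒯 : Set (Set (ℕ → ℕ))) (h𝒯 : ∀ T ∈ 𝒯, #T ≤ ℵ_ 1)
    (hX : ∀ X ⊆ D, #X = ℵ_ 1 → ∃ T ∈ 𝒯, ¬ (X ∩ T).Countable) :
    ∃ E : Set (ℕ → Bool), Cardinal.mk E ≤ Cardinal.mk 𝒯 * ℵ_ 1 ∧
      ∀ π : List Bool → Bool, ∃ f ∈ E, ∀ k : ℕ, ∃ᶠ n in atTop, ∀ i ∈ Finset.Ico n (n + k),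
        f i ≠ π ((List.range i).map f) := by
  classical
  obtain ⟨W, hlo, hwo, hWcard, hIio⟩ : ∃ (W : Type) (_ : LinearOrder W) (_ : WellFoundedLT W),
      #W = ℵ_ 1 ∧ ∀ w : W, (Set.Iio w).Countable := by
    refine ⟨(ℵ_ 1 : Cardinal.{0}).ord.ToType, inferInstance, inferInstance, mk_ord_toType _, fun w => ?_⟩
    have h : #(Set.Iio w) < ℵ_ 1 := mk_Iio_toType_ord_lt w
    rw [← Cardinal.le_aleph0_iff_set_countable]
    exact Order.lt_succ_iff.1 (h.trans_eq succ_aleph0.symm)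
  have hIic : ∀ w : W, (Set.Iic w).Countable := by
    intro w
    have h4 : Set.Iic w = insert w (Set.Iio w) := by
      ext x
      simp [le_iff_eq_or_lt]
    rw [h4]
    exact (hIio w).insert w
  have hunc : ¬ (Set.univ : Set W).Countable := by
    intro h
    have h1 : #(Set.univ : Set W) ≤ ℵ₀ := h.le_aleph0
    rw [mk_univ, hWcard] at h1
    exact absurd aleph0_lt_aleph_one (not_lt.2 h1)
  have hbdd : ∀ B : Set W, B.Countable → ∃ w, ∀ b ∈ B, b < w := by
    intro B hB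
    by_contra hcon
    push Not at hcon
    apply hunc
    have : (Set.univ : Set W) ⊆ ⋃ b ∈ B, Set.Iic b := by
      intro w _
      obtain ⟨b, hb, hw⟩ := hcon w
      exact Set.mem_biUnion hb hw
    exact (hB.biUnion (fun b _ => hIic b)).mono this
  have hWne : Nonempty W := by
    by_contra h
    apply hunc
    rw [not_nonempty_iff] at h
    exact Set.countable_univ
  -- enumerations
  have hen : ∀ T : 𝒯, ∃ t : W → (ℕ → ℕ), (T : Set (ℕ → ℕ)) ⊆ Set.range t := by
    intro T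
    have h1 : #(T : Set (ℕ → ℕ)) ≤ #W := by rw [hWcard]; exact h𝒯 T T.2
    obtain ⟨g⟩ := h1
    refine ⟨fun w => if h : ∃ f : (T : Set (ℕ → ℕ)), g f = w then h.choose.1 else 0, ?_⟩
    intro f hf
    refine ⟨g ⟨f, hf⟩, ?_⟩
    have h : ∃ f' : (T : Set (ℕ → ℕ)), g f' = g ⟨f, hf⟩ := ⟨_, rfl⟩
    simp only [dif_pos h]
    have := g.injective h.choose_spec
    rw [this]
  choose t ht using hen
  obtain ⟨E, hE, H⟩ := core (Set.range (fun q : 𝒯 × W => t q.1 '' Set.Iio q.2))
    (by rintro _ ⟨q, rfl⟩; exact (hIio _).image _) (by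
      intro Ψ
      -- the chain
      have hbound : ∀ F : Set (ℕ → ℕ), F.Countable → ∃ g ∈ D, (∀ f ∈ F, ∀ᶠ n in atTop, f n + 1 ≤ g n) ∧
          ∀ (j : ℕ) (l : List (ℕ → ℕ)), (∀ f ∈ l, f ∈ F) → ∀ᶠ n in atTop, Ψ j l n ≤ g n := by
        intro F hF
        have hFc : Countable F := hF.to_subtype
        obtain ⟨g, hg⟩ := countable_bdd ((fun f n => f n + 1) '' F ∪
          Set.range (fun q : ℕ × List F => Ψ q.1 (q.2.map (fun u : F => u.1))))
          ((hF.image _).union (Set.countable_range _))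
        obtain ⟨g', hg', hgg⟩ := hD g
        refine ⟨g', hg', ?_, ?_⟩
        · intro f hf
          filter_upwards [hgg, hg _ (Or.inl ⟨f, hf, rfl⟩)] with n h1 h2
          exact h2.trans h1
        · intro j l hl
          have h3 : (l.attach.map (fun f => (⟨f.1, hl f.1 f.2⟩ : F))).map (fun u : F => u.1) = l := by
            simp [List.map_map, Function.comp_def]
          filter_upwards [hgg, hg _ (Or.inr ⟨(j, l.attach.map (fun f => (⟨f.1, hl f.1 f.2⟩ : F))), rfl⟩)] with n h1 h2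
          simp only [h3] at h2
          exact h2.trans h1
      choose! bd hbd1 hbd2 hbd3 using hbound
      let p : W → (ℕ → ℕ) := (wellFounded_lt (α := W)).fix
        (fun w ih => bd (Set.range (fun u : Set.Iio w => ih u.1 u.2)))
      have hp : ∀ w, p w = bd (p '' Set.Iio w) := by
        intro w
        have h1 : p w = bd (Set.range (fun u : Set.Iio w => p u.1)) :=
          (wellFounded_lt (α := W)).fix_eq _ w
        rw [h1, Set.image_eq_range]
      have hpD : ∀ w, p w ∈ D := fun w => by rw [hp]; exact hbd1 _ ((hIio w).image _)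
      have hp1 : ∀ w, ∀ v < w, ∀ᶠ n in atTop, p v n + 1 ≤ p w n := by
        intro w v hv
        rw [hp w]
        exact hbd2 _ ((hIio w).image _) _ ⟨v, hv, rfl⟩
      have hp2 : ∀ w (j : ℕ) (l : List (ℕ → ℕ)), (∀ f ∈ l, f ∈ p '' Set.Iio w) →
          ∀ᶠ n in atTop, Ψ j l n ≤ p w n := by
        intro w j l hl
        rw [hp w]
        exact hbd3 _ ((hIio w).image _) j l hl
      have hinj : Function.Injective p := by
        intro v w hvw
        rcases lt_trichotomy v w with h | h | h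
        · obtain ⟨n, hn⟩ := (hp1 w v h).exists
          rw [hvw] at hn; omega
        · exact h
        · obtain ⟨n, hn⟩ := (hp1 v w h).exists
          rw [hvw] at hn; omega
      obtain ⟨T, hT, hTX⟩ := hX (Set.range p) (by rintro _ ⟨w, rfl⟩; exact hpD w)
        (by rw [mk_range_eq p hinj, hWcard])
      -- indices of the chain in T are unbounded
      have hunb : ∀ u : W, ∃ v, u < v ∧ p v ∈ T := by
        intro u
        by_contra hcon
        push Not at hcon
        apply hTX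
        refine ((hIic u).image p).mono ?_
        rintro _ ⟨⟨v, rfl⟩, hv⟩
        refine ⟨v, ?_, rfl⟩
        by_contra h
        exact hcon v (not_le.1 h) hv
      have hnext : ∀ η : W, ∃ η', η < η' ∧ ∃ ζ < η', t ⟨T, hT⟩ ζ ∈ Set.range p ∧
          ∀ (j : ℕ) (l : List (ℕ → ℕ)), (∀ f ∈ l, f ∈ (t ⟨T, hT⟩ '' Set.Iic η) ∩ Set.range p) →
            ∀ᶠ n in atTop, Ψ j l n ≤ t ⟨T, hT⟩ ζ n := by
        intro η
        have hc : (p ⁻¹' (t ⟨T, hT⟩ '' Set.Iic η)).Countable := ((hIic η).image _).preimage hinj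
        obtain ⟨u, hu⟩ := hbdd _ hc
        obtain ⟨v, huv, hv⟩ := hunb u
        obtain ⟨ζ, hζ⟩ := ht ⟨T, hT⟩ hv
        obtain ⟨η', hη'⟩ := hbdd {η, ζ} (Set.toFinite _).countable
        refine ⟨η', hη' η (by simp), ζ, hη' ζ (by simp), ⟨v, hζ.symm⟩, ?_⟩
        intro j l hl
        rw [hζ]
        apply hp2
        intro f hf
        obtain ⟨h1, ⟨w, rfl⟩⟩ := hl f hf
        exact ⟨w, (hu w h1).trans huv, rfl⟩
      choose nx hnx1 ζ hζ1 hζ2 hζ3 using hnext
      let v : ℕ → W := fun n => Nat.rec (Classical.arbitrary W) (fun _ u => nx u) n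
      have hv : ∀ n, v (n + 1) = nx (v n) := fun n => rfl
      have hvm : StrictMono v := strictMono_nat_of_lt_succ (fun n => by rw [hv]; exact hnx1 _)
      obtain ⟨w, hw1, hw2⟩ : ∃ w, (∀ n, v n < w) ∧ ∀ u < w, ∃ n, u ≤ v n := by
        have hne : {w | ∀ n, v n < w}.Nonempty := by
          obtain ⟨w, hw⟩ := hbdd (Set.range v) (Set.countable_range v)
          exact ⟨w, fun n => hw _ ⟨n, rfl⟩⟩
        refine ⟨wellFounded_lt.min _ hne, wellFounded_lt.min_mem _ hne, ?_⟩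
        intro u hu
        by_contra hcon
        push Not at hcon
        exact wellFounded_lt.not_lt_min _ (show u ∈ {w | ∀ n, v n < w} from hcon) hu
      refine ⟨_, ⟨(⟨T, hT⟩, w), rfl⟩, (t ⟨T, hT⟩ '' Set.Iio w) ∩ Set.range p, Set.inter_subset_left, ?_⟩
      intro j l hl
      have hn : ∃ n, ∀ f ∈ l, f ∈ (t ⟨T, hT⟩ '' Set.Iic (v n)) ∩ Set.range p := by
        clear_value v
        induction l with
        | nil => exact ⟨0, by simp⟩
        | cons g l ih =>
          obtain ⟨n, hn⟩ := ih (fun f hf => hl f (List.mem_cons_of_mem _ hf))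
          obtain ⟨⟨b, hb, hbg⟩, hgp⟩ := hl g List.mem_cons_self
          obtain ⟨m, hm⟩ := hw2 b hb
          refine ⟨max n m, ?_⟩
          intro f hf
          rcases List.mem_cons.1 hf with rfl | h'
          · exact ⟨⟨b, hm.trans (hvm.monotone (le_max_right _ _)), hbg⟩, hgp⟩
          · obtain ⟨⟨b', hb', hbf⟩, hfp⟩ := hn f h'
            exact ⟨⟨b', le_trans hb' (hvm.monotone (le_max_left _ _)), hbf⟩, hfp⟩
      obtain ⟨n, hn⟩ := hn
      exact ⟨t ⟨T, hT⟩ (ζ (v n)), ⟨⟨_, (hζ1 (v n)).trans (hw1 (n + 1)), rfl⟩, hζ2 (v n)⟩, hζ3 (v n) j l hn⟩)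
  refine ⟨E, hE.trans (mk_range_le.trans ?_), H⟩
  rw [mk_prod, lift_id, lift_id, hWcard]

end H967CP
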