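import Pool.Agent.H967R3.CP.Core

set_option autoImplicit false
open Filter Cardinal

namespace H967CP

theorem countable_bdd (F : Set (ℕ → ℕ)) (hF : F.Countable) :
    ∃ g : ℕ → ℕ, ∀ f ∈ F, ∀ᶠ n in atTop, f n ≤ g n := by
  rcases F.eq_empty_or_nonempty with rfl | hne
  · exact ⟨0, by simp⟩
  obtain ⟨e, rfl⟩ := hF.exists_eq_range hne
  refine ⟨fun n => ∑ i ∈ Finset.range (n + 1), e i n, ?_⟩
  rintro _ ⟨i, rfl⟩
  refine eventually_atTop.2 ⟨i, fun n hn => ?_⟩
  exact Finset.single_le_sum (f := fun i => e i n) (fun _ _ => Nat.zero_le _) (Finset.mem_range.2 (by omega))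

theorem scale_version (D : Set (ℕ → ℕ)) (hD : ∀ g : ℕ → ℕ, ∃ f ∈ D, ∀ᶠ n in atTop, g n ≤ f n)
    (hb : ∀ F : Set (ℕ → ℕ), #F < #D → ∃ g : ℕ → ℕ, ∀ f ∈ F, ∀ᶠ n in atTop, f n ≤ g n) :
    ∃ E : Set (ℕ → Bool), Cardinal.mk E ≤ Cardinal.mk D ∧
      ∀ π : List Bool → Bool, ∃ f ∈ E, ∀ k : ℕ, ∃ᶠ n in atTop, ∀ i ∈ Finset.Ico n (n + k),
        f i ≠ π ((List.range i).map f) := by
  classical
  have hdom : ∀ g : ℕ → ℕ, ¬ ∀ f ∈ D, ∀ᶠ n in atTop, f n ≤ g n := by
    intro g hg
    obtain ⟨f, hf, hfe⟩ := hD (fun n => g n + 1)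
    obtain ⟨n, h1, h2⟩ := (hfe.and (hg f hf)).exists
    omega
  have hκ : ℵ₀ < #D := by
    by_contra hcon
    obtain ⟨g, hg⟩ := countable_bdd D (le_aleph0_iff_set_countable.1 (not_lt.1 hcon))
    exact hdom g hg
  obtain ⟨W, hlo, hwo, hWcard, hIio⟩ : ∃ (W : Type) (_ : LinearOrder W) (_ : WellFoundedLT W),
      #W = #D ∧ ∀ w : W, #(Set.Iio w) < #D :=
    ⟨(#D).ord.ToType, inferInstance, inferInstance, mk_ord_toType _, fun w => mk_Iio_toType_ord_lt w⟩
  obtain ⟨e⟩ : Nonempty (W ≃ D) := Cardinal.eq.1 hWcard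
  have hIic : ∀ w : W, #(Set.Iic w) < #D := by
    intro w
    have h4 : Set.Iic w = insert w (Set.Iio w) := by
      ext x
      simp [le_iff_eq_or_lt]
    rw [h4]
    exact (mk_insert_le).trans_lt (add_lt_of_lt hκ.le (hIio w) (one_lt_aleph0.trans hκ))
  have hs : ∀ w : W, ∃ g : ℕ → ℕ, ∀ v ≤ w, ∀ᶠ n in atTop, (e v : ℕ → ℕ) n ≤ g n := by
    intro w
    obtain ⟨g, hg⟩ := hb ((fun v => (e v : ℕ → ℕ)) '' Set.Iic w) (mk_image_le.trans_lt (hIic w))
    exact ⟨g, fun v hv => hg _ ⟨v, hv, rfl⟩⟩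
  choose s hs using hs
  have hbdd : ∀ B : Set W, #B < #D → ∃ w, ∀ b ∈ B, b < w := by
    intro B hB
    by_contra hcon
    push Not at hcon
    obtain ⟨g, hg⟩ := hb (s '' B) (mk_image_le.trans_lt hB)
    apply hdom g
    intro f hf
    obtain ⟨b, hbB, hle⟩ := hcon (e.symm ⟨f, hf⟩)
    have h1 := hs b _ hle
    have h2 := hg (s b) ⟨b, hbB, rfl⟩
    filter_upwards [h1, h2] with n h3 h4
    simp at h3
    exact h3.trans h4
  -- the countable cofinal sets
  let A : W → Set W := fun w =>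
    if h : ∃ B : Set W, B.Countable ∧ (∀ b ∈ B, b < w) ∧ ∀ v < w, ∃ b ∈ B, v ≤ b then h.choose else ∅
  have hAc : ∀ w, (A w).Countable := by
    intro w
    by_cases h : ∃ B : Set W, B.Countable ∧ (∀ b ∈ B, b < w) ∧ ∀ v < w, ∃ b ∈ B, v ≤ b
    · simp only [A, dif_pos h]
      exact h.choose_spec.1
    · simp only [A, dif_neg h]
      exact Set.countable_empty
  obtain ⟨E, hE, H⟩ := core (Set.range (fun w => s '' A w))
    (by rintro _ ⟨w, rfl⟩; exact (hAc w).image _) (by
      intro Ψ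
      choose ρ' hρ1 hρ2 using fun (j : ℕ) (l : List (ℕ → ℕ)) => hD (Ψ j l)
      let ρ : ℕ → List (ℕ → ℕ) → W := fun j l => e.symm ⟨ρ' j l, hρ1 j l⟩
      have hnext : ∀ v : W, ∃ v', v < v' ∧ ∀ (j : ℕ) (l : List (ℕ → ℕ)), (∀ f ∈ l, f ∈ s '' Set.Iic v) → ρ j l < v' := by
        intro v
        have hcard : #(Set.range (fun q : ℕ × List (Set.Iic v) => ρ q.1 (q.2.map (fun u : Set.Iic v => s u.1)))) < #D := by
          refine mk_range_le.trans_lt ?_
          rw [mk_prod, lift_id, lift_id, mk_nat]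
          refine mul_lt_of_lt hκ.le hκ ?_
          exact (mk_list_le_max _).trans_lt (max_lt hκ (hIic v))
        obtain ⟨u, hu⟩ := hbdd _ hcard
        obtain ⟨u', hu'⟩ := hbdd {u, v} (by
          refine lt_of_le_of_lt ?_ hκ
          exact le_aleph0_iff_set_countable.2 (Set.toFinite _).countable)
        refine ⟨u', hu' v (by simp), ?_⟩
        intro j l hl
        refine lt_trans ?_ (hu' u (by simp))
        apply hu
        have hWn : Nonempty W := ⟨v⟩
        choose! c hc1 hc2 using hl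
        refine ⟨(j, l.attach.map (fun f => (⟨c f.1, hc1 f.1 f.2⟩ : Set.Iic v))), ?_⟩
        have : (l.attach.map (fun f => (⟨c f.1, hc1 f.1 f.2⟩ : Set.Iic v))).map (fun u : Set.Iic v => s u.1) = l := by
          rw [List.map_map]
          conv_rhs => rw [← List.attach_map_subtype_val l]
          apply List.map_congr_left
          intro f _
          exact hc2 f.1 f.2
        simp only [this]
      choose nx hnx1 hnx2 using hnext
      have hWne : Nonempty W := by
        rw [← mk_ne_zero_iff, hWcard]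
        exact (aleph0_pos.trans hκ).ne'
      let v : ℕ → W := fun n => Nat.rec (Classical.arbitrary W) (fun _ u => nx u) n
      have hv : ∀ n, v (n + 1) = nx (v n) := fun n => rfl
      have hvm : StrictMono v := strictMono_nat_of_lt_succ (fun n => by rw [hv]; exact hnx1 _)
      obtain ⟨w, hw1, hw2⟩ : ∃ w, (∀ n, v n < w) ∧ ∀ u < w, ∃ n, u ≤ v n := by
        have hne : {w | ∀ n, v n < w}.Nonempty := by
          obtain ⟨w, hw⟩ := hbdd (Set.range v) (lt_of_le_of_lt (le_aleph0_iff_set_countable.2 (Set.countable_range v)) hκ)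
          exact ⟨w, fun n => hw _ ⟨n, rfl⟩⟩
        refine ⟨wellFounded_lt.min _ hne, wellFounded_lt.min_mem _ hne, ?_⟩
        intro u hu
        by_contra hcon
        push Not at hcon
        exact wellFounded_lt.not_lt_min _ (show u ∈ {w | ∀ n, v n < w} from hcon) hu
      have hex : ∃ B : Set W, B.Countable ∧ (∀ b ∈ B, b < w) ∧ ∀ v < w, ∃ b ∈ B, v ≤ b := by
        refine ⟨Set.range v, Set.countable_range v, ?_, ?_⟩
        · rintro _ ⟨n, rfl⟩
          exact hw1 n
        · intro u hu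
          obtain ⟨n, hn⟩ := hw2 u hu
          exact ⟨_, ⟨n, rfl⟩, hn⟩
      have hA : A w = hex.choose := by simp only [A, dif_pos hex]
      have hA2 : ∀ b ∈ A w, b < w := by rw [hA]; exact hex.choose_spec.2.1
      have hA3 : ∀ v < w, ∃ b ∈ A w, v ≤ b := by rw [hA]; exact hex.choose_spec.2.2
      refine ⟨_, ⟨w, rfl⟩, _, subset_rfl, ?_⟩
      intro j l hl
      have hn : ∃ n, ∀ f ∈ l, f ∈ s '' Set.Iic (v n) := by
        clear_value v
        induction l with
        | nil => exact ⟨0, by simp⟩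
        | cons g l ih =>
          obtain ⟨n, hn⟩ := ih (fun f hf => hl f (List.mem_cons_of_mem _ hf))
          obtain ⟨b, hb, rfl⟩ := hl g List.mem_cons_self
          obtain ⟨m, hm⟩ := hw2 b (hA2 b hb)
          refine ⟨max n m, ?_⟩
          intro f hf
          rcases List.mem_cons.1 hf with rfl | h'
          · exact ⟨b, hm.trans (hvm.monotone (le_max_right _ _)), rfl⟩
          · obtain ⟨b', hb', rfl⟩ := hn f h'
            exact ⟨b', le_trans hb' (hvm.monotone (le_max_left _ _)), rfl⟩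
      obtain ⟨n, hn⟩ := hn
      have h1 : ρ j l < w := lt_trans (hnx2 (v n) j l hn) (hw1 (n + 1))
      obtain ⟨b, hbA, hle⟩ := hA3 _ h1
      refine ⟨s b, ⟨b, hbA, rfl⟩, ?_⟩
      have h2 := hs b _ hle
      filter_upwards [h2, hρ2 j l] with n h3 h4
      simp [ρ] at h3
      exact h4.trans h3)
  refine ⟨E, hE.trans (mk_range_le.trans hWcard.le), H⟩

end H967CP
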