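import Pool.Agent.H967R3.CP.Omega1

set_option autoImplicit false
open Filter Cardinal Ordinal

namespace H967CP

def WW (κ : Cardinal.{0}) : Prop := ∀ (α : Type) (_ : #α ≤ κ), ∃ 𝒯 : Set (Set α),
    #𝒯 ≤ κ ∧ (∀ T ∈ 𝒯, #T ≤ ℵ_ 1) ∧ ∀ X : Set α, #X = ℵ_ 1 → ∃ T ∈ 𝒯, ¬ (X ∩ T).Countable

theorem not_countable_of {α : Type} {X : Set α} (h : #X = ℵ_ 1) : ¬ X.Countable := by
  intro hc
  have h1 := hc.le_aleph0
  rw [h] at h1
  exact absurd aleph0_lt_aleph_one (not_lt.2 h1)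

theorem sub_aleph_one {α : Type} {X : Set α} (h : ¬ X.Countable) : ∃ Y ⊆ X, #Y = ℵ_ 1 := by
  have h1 : ℵ_ 1 ≤ #X := by
    rw [← succ_aleph0, Order.succ_le_iff]
    by_contra hcon
    exact h (le_aleph0_iff_set_countable.1 (not_lt.1 hcon))
  exact le_mk_iff_exists_subset.1 h1

/-- the general step, given that uncountable sets are uncountable on an initial segment -/
theorem WW_step (κ : Cardinal.{0}) (hκ : ℵ_ 1 ≤ κ)
    (hbd : ∀ X : Set κ.ord.ToType, #X = ℵ_ 1 → ∃ w, ¬ (X ∩ Set.Iio w).Countable)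
    (ih : ∀ c < κ, ∃ c' ≤ κ, c ≤ c' ∧ WW c') : WW κ := by
  intro α hα
  have hα' : #α ≤ #(κ.ord.ToType) := by rw [mk_ord_toType]; exact hα
  obtain ⟨g⟩ := hα'
  have hκ0 : ℵ₀ ≤ κ := (aleph0_le_aleph 1).trans hκ
  have key : ∀ w : κ.ord.ToType, ∃ 𝒯 : Set (Set {a : α // g a < w}),
      #𝒯 ≤ κ ∧ (∀ T ∈ 𝒯, #T ≤ ℵ_ 1) ∧ ∀ X : Set {a : α // g a < w}, #X = ℵ_ 1 → ∃ T ∈ 𝒯, ¬ (X ∩ T).Countable := by
    intro w
    have h2 : #(Set.Iio w) < κ := mk_Iio_toType_ord_lt _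
    obtain ⟨c', hc', hcc, hW⟩ := ih _ h2
    have h3 : #{a : α // g a < w} ≤ #(Set.Iio w) := by
      refine ⟨⟨fun a => ⟨g a.1, a.2⟩, ?_⟩⟩
      intro a b hab
      exact Subtype.ext (g.injective (congrArg Subtype.val hab))
    obtain ⟨𝒯, h1, h2, h4⟩ := hW _ (h3.trans hcc)
    exact ⟨𝒯, h1.trans hc', h2, h4⟩
  choose 𝒯 h𝒯1 h𝒯2 h𝒯3 using key
  refine ⟨⋃ w, (fun A : Set {a : α // g a < w} => (Subtype.val '' A : Set α)) '' (𝒯 w), ?_, ?_, ?_⟩
  · refine (mk_iUnion_le _).trans ?_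
    have h1 : (⨆ w, #((fun A : Set {a : α // g a < w} => (Subtype.val '' A : Set α)) '' (𝒯 w))) ≤ κ :=
      ciSup_le' (fun w => mk_image_le.trans (h𝒯1 w))
    rw [mk_ord_toType]
    refine (mul_le_mul' le_rfl h1).trans ?_
    rw [mul_eq_self hκ0]
  · intro A hA
    obtain ⟨w, hw⟩ := Set.mem_iUnion.1 hA
    obtain ⟨A', hA', rfl⟩ := hw
    exact mk_image_le.trans (h𝒯2 w A' hA')
  · intro X hX
    obtain ⟨w, hw⟩ := hbd (g '' X) (by rw [mk_image_eq g.injective, hX])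
    have hY : ¬ (Subtype.val ⁻¹' X : Set {a : α // g a < w}).Countable := by
      intro hc
      apply hw
      refine (hc.image (fun a : {a : α // g a < w} => g a.1)).mono ?_
      rintro _ ⟨⟨a, ha, rfl⟩, haw⟩
      exact ⟨⟨a, haw⟩, ha, rfl⟩
    obtain ⟨Y, hYX, hYc⟩ := sub_aleph_one hY
    obtain ⟨T, hT, hTY⟩ := h𝒯3 w Y hYc
    refine ⟨Subtype.val '' T, Set.mem_iUnion.2 ⟨w, T, hT, rfl⟩, ?_⟩
    intro hc
    apply hTY
    refine (hc.preimage (f := (Subtype.val : {a : α // g a < w} → α)) Subtype.val_injective).mono ?_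
    rintro a ⟨ha1, ha2⟩
    exact ⟨hYX ha1, a, ha2, rfl⟩

theorem WW_one : WW (ℵ_ 1) := by
  intro α hα
  refine ⟨{Set.univ}, ?_, ?_, ?_⟩
  · rw [mk_singleton]
    exact one_le_aleph0.trans (aleph0_le_aleph _)
  · rintro T rfl
    rwa [mk_univ]
  · intro X hX
    exact ⟨_, rfl, by rw [Set.inter_univ]; exact not_countable_of hX⟩

theorem bounded_succ (κ : Cardinal.{0}) (hκ : ℵ₀ ≤ κ) (B : Set (Order.succ κ).ord.ToType)
    (hB : #B ≤ κ) : ∃ w, ∀ b ∈ B, b < w := by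
  by_contra hcon
  push Not at hcon
  have hU : (Set.univ : Set (Order.succ κ).ord.ToType) ⊆ ⋃ b : B, Set.Iic b.1 := by
    intro w _
    obtain ⟨b, hb, hw⟩ := hcon w
    exact Set.mem_iUnion.2 ⟨⟨b, hb⟩, hw⟩
  have h1 : ∀ b : B, #(Set.Iic b.1) ≤ κ := by
    intro b
    have h2 : #(Set.Iio b.1) < Order.succ κ := mk_Iio_toType_ord_lt _
    have h3 : #(Set.Iio b.1) ≤ κ := Order.lt_succ_iff.1 h2
    have h4 : Set.Iic b.1 = insert b.1 (Set.Iio b.1) := by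
      ext x
      simp [le_iff_eq_or_lt]
    rw [h4]
    refine (mk_insert_le).trans ?_
    refine (add_le_add h3 le_rfl).trans ?_
    rw [add_one_of_aleph0_le hκ]
  have h5 : #(Set.univ : Set (Order.succ κ).ord.ToType) ≤ κ := by
    refine (mk_le_mk_of_subset hU).trans ?_
    refine (mk_iUnion_le _).trans ?_
    refine (mul_le_mul' hB (ciSup_le' h1)).trans ?_
    rw [mul_eq_self hκ]
  rw [mk_univ, mk_ord_toType] at h5
  exact absurd h5 (not_le.2 (Order.lt_succ κ))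

def Bd (κ : Cardinal.{0}) : Prop :=
  ∀ X : Set κ.ord.ToType, #X = ℵ_ 1 → ∃ w, ¬ (X ∩ Set.Iio w).Countable

theorem Bd_succ (κ : Cardinal.{0}) (hκ : ℵ_ 1 ≤ κ) : Bd (Order.succ κ) := by
  intro X hX
  obtain ⟨w, hw⟩ := bounded_succ κ ((aleph0_le_aleph 1).trans hκ) X (hX.le.trans hκ)
  refine ⟨w, ?_⟩
  have hsub : X ⊆ Set.Iio w := fun x hx => hw x hx
  rw [Set.inter_eq_left.2 hsub]
  exact not_countable_of hX

theorem Bd_limit (α : Ordinal.{0}) (hα : α < ω_ 1) (hlim : Order.IsSuccLimit α) : Bd (ℵ_ α) := by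
  intro X hX
  by_contra hcon
  push Not at hcon
  apply not_countable_of hX
  have hcount : Countable (Set.Iio α) := by
    have h2 : α.card ≤ ℵ₀ := Order.lt_succ_iff.1 ((lt_omega_iff_card_lt.1 hα).trans_eq succ_aleph0.symm)
    rw [← mk_le_aleph0_iff, Cardinal.mk_Iio_ordinal, Cardinal.lift_le_aleph0]
    exact h2
  have hex : ∀ β : Set.Iio α, ∃ w : (ℵ_ α).ord.ToType,
      typein (α := (ℵ_ α).ord.ToType) (· < ·) w = (ℵ_ β.1).ord := by
    intro β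
    apply typein_surj
    rw [type_toType]
    exact ord_lt_ord.2 (aleph_lt_aleph.2 β.2)
  choose u hu using hex
  have hsub : X ⊆ ⋃ β : Set.Iio α, X ∩ Set.Iio (u β) := by
    intro x hx
    have h1 := (lt_ord.1 (typein_lt_self x)).trans_eq (aleph_limit hlim)
    obtain ⟨β, hβ⟩ := exists_lt_of_lt_ciSup' h1
    refine Set.mem_iUnion.2 ⟨β, hx, ?_⟩
    have h2 := lt_ord.2 hβ
    rw [← hu β, typein_lt_typein] at h2
    exact h2
  exact (Set.countable_iUnion (fun β => hcon (u β))).mono hsub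

theorem WW_aleph (α : Ordinal.{0}) (hα1 : 1 ≤ α) (hα : α < ω_ 1) : WW (ℵ_ α) := by
  induction α using WellFoundedLT.induction with
  | ind α ih =>
    rcases eq_or_lt_of_le hα1 with h1 | h1
    · rw [← h1]; exact WW_one
    have hih : ∀ c < ℵ_ α, ∃ c' ≤ ℵ_ α, c ≤ c' ∧ WW c' := by
      intro c hc
      by_cases hc1 : c ≤ ℵ_ 1
      · exact ⟨ℵ_ 1, aleph_le_aleph.2 hα1, hc1, WW_one⟩
      · have hc0 : ℵ₀ ≤ c := (aleph0_le_aleph 1).trans (not_le.1 hc1).le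
        obtain ⟨γ, rfl⟩ := mem_range_aleph_iff.2 hc0
        have hγ : γ < α := aleph_lt_aleph.1 hc
        have hγ1 : 1 ≤ γ := aleph_le_aleph.1 (not_le.1 hc1).le
        exact ⟨ℵ_ γ, hc.le, le_rfl, ih γ hγ hγ1 (hγ.trans hα)⟩
    have hBd : Bd (ℵ_ α) := by
      rcases zero_or_succ_or_isSuccLimit α with h0 | ⟨β, rfl⟩ | hlim
      · subst h0
        exact absurd h1 (by simp)
      · have hβ : 1 ≤ β := Order.lt_succ_iff.1 h1
        have := Bd_succ (ℵ_ β) (aleph_le_aleph.2 hβ)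
        rw [← aleph_succ] at this
        exact this
      · exact Bd_limit α hα hlim
    exact WW_step _ (aleph_le_aleph.2 hα1) hBd hih

theorem aleph_omega1_version (D : Set (ℕ → ℕ)) (hD : ∀ g : ℕ → ℕ, ∃ f ∈ D, ∀ᶠ n in atTop, g n ≤ f n)
    (hω : #D < ℵ_ (ω_ 1)) :
    ∃ E : Set (ℕ → Bool), Cardinal.mk E ≤ Cardinal.mk D ∧
      ∀ π : List Bool → Bool, ∃ f ∈ E, ∀ k : ℕ, ∃ᶠ n in atTop, ∀ i ∈ Finset.Ico n (n + k),
        f i ≠ π ((List.range i).map f) := by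
  have hunc : ℵ₀ < #D := by
    by_contra hcon
    obtain ⟨g, hg⟩ := countable_bdd D (le_aleph0_iff_set_countable.1 (not_lt.1 hcon))
    obtain ⟨f, hf, hfe⟩ := hD (fun n => g n + 1)
    obtain ⟨n, h1, h2⟩ := (hfe.and (hg f hf)).exists
    omega
  have h1 : ℵ_ 1 ≤ #D := by
    rw [← succ_aleph0, Order.succ_le_iff]
    exact hunc
  obtain ⟨o, ho⟩ := mem_range_aleph_iff.2 hunc.le
  have ho1 : 1 ≤ o := by rw [← ho] at h1; exact aleph_le_aleph.1 h1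
  have ho2 : o < ω_ 1 := by rw [← ho] at hω; exact aleph_lt_aleph.1 hω
  obtain ⟨𝒯, h𝒯1, h𝒯2, h𝒯3⟩ := WW_aleph o ho1 ho2 D ho.ge
  obtain ⟨E, hE, H⟩ := chain_version D hD ((fun A : Set D => (Subtype.val '' A : Set (ℕ → ℕ))) '' 𝒯)
    (by rintro _ ⟨A, hA, rfl⟩; exact mk_image_le.trans (h𝒯2 A hA))
    (by
      intro X hXD hX
      have hX' : #(Subtype.val ⁻¹' X : Set D) = ℵ_ 1 := by
        rw [← hX]
        have : (Subtype.val '' (Subtype.val ⁻¹' X : Set D)) = X := by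
          ext x
          constructor
          · rintro ⟨y, hy, rfl⟩; exact hy
          · intro hx; exact ⟨⟨x, hXD hx⟩, hx, rfl⟩
        rw [← mk_image_eq (s := (Subtype.val ⁻¹' X : Set D)) Subtype.val_injective, this]
      obtain ⟨T, hT, hTX⟩ := h𝒯3 _ hX'
      refine ⟨_, ⟨T, hT, rfl⟩, ?_⟩
      intro hc
      apply hTX
      refine (hc.preimage (f := (Subtype.val : D → (ℕ → ℕ))) Subtype.val_injective).mono ?_
      rintro a ⟨ha1, ha2⟩
      exact ⟨ha1, a, ha2, rfl⟩)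
  refine ⟨E, hE.trans ?_, H⟩
  refine (mul_le_mul' (mk_image_le.trans (h𝒯1.trans ho.le)) h1).trans ?_
  rw [mul_eq_self hunc.le]

end H967CP
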